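import Pool.Agent.W902.C6.Stm2

/-!
Project C6, part CANO: canonical representatives.
-/

set_option autoImplicit false

open Pool.Agent.H800R3 Filter Topology

namespace Pool.Agent.W110.C6

open Pool.Agent.W902.C6

theorem ev_mul (a : ℝ) : ∀ᶠ e in 𝓝[>] (0 : ℝ), e * a < 1 := by
  refine eventually_nhdsWithin_of_eventually_nhds ?_
  have h : Tendsto (fun e : ℝ => e * a) (𝓝 0) (𝓝 (0 * a)) :=
    (continuous_id.mul continuous_const).tendsto 0
  rw [zero_mul] at h
  exact h.eventually (gt_mem_nhds one_pos)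

theorem ev_lt {a : ℝ} (ha : 0 < a) : ∀ᶠ e in 𝓝[>] (0 : ℝ), e < a :=
  eventually_nhdsWithin_of_eventually_nhds (gt_mem_nhds ha)

theorem sign_neg_eq {x y : ℝ} (hx : x < 0) (hy : y < 0) : SignType.sign x = SignType.sign y := by
  rw [sign_neg hx, sign_neg hy]

open Classical in
theorem main : S_cano := by
  intro A T hAT hT hA
  obtain ⟨t1, ht1, ht1'⟩ := hT
  obtain ⟨s1, hs1, hs1'⟩ := hA
  have hTne : T.Nonempty := ⟨t1, ht1⟩
  have hAne : A.Nonempty := ⟨s1, hs1⟩
  obtain ⟨t0, ht0, ht0max⟩ := T.exists_max_image id hTne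
  obtain ⟨s0, hs0, hs0min⟩ := A.exists_min_image id hAne
  simp only [id] at ht0max hs0min
  have ht01 : 1 < t0 := lt_of_lt_of_le ht1' (ht0max t1 ht1)
  have ht0pos : 0 < t0 := by linarith
  have hs0neg : s0 < 0 := lt_of_le_of_lt (hs0min s1 hs1) hs1'
  -- step A
  obtain ⟨e, ⟨he1, he2⟩, hepos⟩ : ∃ e : ℝ, ((∀ s ∈ A, s < 0 → e < -s) ∧
      (∀ t ∈ T, e * (-t) < 1)) ∧ 0 < e := by
    have h1 : ∀ᶠ e in 𝓝[>] (0 : ℝ), ∀ s ∈ A, s < 0 → e < -s := by
      rw [Finset.eventually_all]
      intro s _
      by_cases hs : s < 0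
      · filter_upwards [ev_lt (a := -s) (by linarith)] with e he _ using he
      · exact Eventually.of_forall fun e h => absurd h hs
    have h2 : ∀ᶠ e in 𝓝[>] (0 : ℝ), ∀ t ∈ T, e * (-t) < 1 := by
      rw [Finset.eventually_all]
      intro t _
      exact ev_mul (-t)
    have h3 : ∀ᶠ e in 𝓝[>] (0 : ℝ), 0 < e := eventually_mem_nhdsWithin
    exact ((h1.and h2).and h3).exists
  have hinv : 0 < 1 / t0 := by positivity
  have hinv1 : 1 / t0 < 1 := by rw [div_lt_one ht0pos]; exact ht01
  have hmul : ∀ s, s < 1 / t0 ↔ s * t0 < 1 := fun s => lt_div_iff₀ ht0pos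
  set f : ℝ → ℝ := fun s => if 0 ≤ s ∧ s < 1 / t0 then -(e / 2) * (1 - s * t0) else s with hf
  have fmv : ∀ s, 0 ≤ s → s < 1 / t0 → f s = -(e / 2) * (1 - s * t0) := by
    intro s h1 h2; simp only [hf]; rw [if_pos ⟨h1, h2⟩]
  have fneg : ∀ s, s < 0 → f s = s := by
    intro s h1; simp only [hf]; rw [if_neg (fun h => absurd h.1 (not_le.2 h1))]
  have fpos : ∀ s, 1 / t0 ≤ s → f s = s := by
    intro s h1; simp only [hf]; rw [if_neg (fun h => absurd h.2 (not_lt.2 h1))]
  -- values of the moved points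
  have fmv_lt : ∀ s, 0 ≤ s → s < 1 / t0 → f s < 0 := by
    intro s h1 h2
    rw [fmv s h1 h2]
    have := (hmul s).1 h2
    nlinarith
  have fmv_ge : ∀ s, 0 ≤ s → s < 1 / t0 → -(e / 2) ≤ f s := by
    intro s h1 h2
    rw [fmv s h1 h2]
    have := mul_nonneg h1 ht0pos.le
    nlinarith
  have fmono : ∀ s ∈ A, ∀ s' ∈ A, s < s' → f s < f s' := by
    intro s hs s' hs' hlt
    rcases lt_or_ge s 0 with h1 | h1
    · rw [fneg s h1]
      rcases lt_or_ge s' 0 with h2 | h2
      · rw [fneg s' h2]; exact hlt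
      · rcases lt_or_ge s' (1 / t0) with h3 | h3
        · have := fmv_ge s' h2 h3
          have := he1 s hs h1
          linarith
        · rw [fpos s' h3]; exact hlt
    · rcases lt_or_ge s (1 / t0) with h3 | h3
      · rcases lt_or_ge s' (1 / t0) with h4 | h4
        · rw [fmv s h1 h3, fmv s' (by linarith) h4]
          have : s * t0 < s' * t0 := mul_lt_mul_of_pos_right hlt ht0pos
          nlinarith
        · rw [fpos s' h4]
          have := fmv_lt s h1 h3
          linarith
      · rw [fpos s h3, fpos s' (by linarith)]; exact hlt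
  have fsign1 : ∀ s, SignType.sign (f s - 1) = SignType.sign (s - 1) := by
    intro s
    rcases lt_or_ge s 0 with h1 | h1
    · rw [fneg s h1]
    · rcases lt_or_ge s (1 / t0) with h3 | h3
      · have := fmv_lt s h1 h3
        exact sign_neg_eq (by linarith) (by linarith)
      · rw [fpos s h3]
  have fsign : ∀ s ∈ A, ∀ t ∈ T, SignType.sign (f s * t - 1) = SignType.sign (s * t - 1) := by
    intro s hs t ht
    rcases lt_or_ge s 0 with h1 | h1
    · rw [fneg s h1]
    · rcases lt_or_ge s (1 / t0) with h3 | h3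
      · have hlt := fmv_lt s h1 h3
        have hge := fmv_ge s h1 h3
        have hst := (hmul s).1 h3
        have htt := ht0max t ht
        have het := he2 t ht
        refine sign_neg_eq ?_ ?_
        · rcases lt_or_ge t 0 with h4 | h4
          · have : f s * t ≤ -(e / 2) * t := mul_le_mul_of_nonpos_right hge h4.le
            nlinarith
          · have : f s * t ≤ 0 := mul_nonpos_of_nonpos_of_nonneg hlt.le h4
            linarith
        · have : s * t ≤ s * t0 := mul_le_mul_of_nonneg_left htt h1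
          linarith
      · rw [fpos s h3]
  set A' := A.image f with hA'
  have hfs0 : f s0 = s0 := fneg s0 hs0neg
  have hs0A' : s0 ∈ A' := Finset.mem_image.2 ⟨s0, hs0, hfs0⟩
  have hA'min : ∀ s ∈ A', s0 ≤ s := by
    intro s hs
    obtain ⟨r, hr, rfl⟩ := Finset.mem_image.1 hs
    rcases (hs0min r hr).lt_or_eq with h | h
    · rw [← hfs0]; exact (fmono s0 hs0 r hr h).le
    · rw [← h, hfs0]
  have hA'pos : ∀ s ∈ A', 0 ≤ s → 0 < s ∧ 1 ≤ s * t0 := by
    intro s hs hs'
    obtain ⟨r, hr, rfl⟩ := Finset.mem_image.1 hs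
    rcases lt_or_ge r 0 with h1 | h1
    · rw [fneg r h1] at hs'; linarith
    · rcases lt_or_ge r (1 / t0) with h3 | h3
      · have := fmv_lt r h1 h3; linarith
      · rw [fpos r h3]
        exact ⟨by linarith, (div_le_iff₀ ht0pos).1 h3⟩
  -- step B
  obtain ⟨d, ⟨⟨hd1, hd2⟩, hd3⟩, hdpos⟩ : ∃ d : ℝ, (((∀ t ∈ T, 0 < t → d < t) ∧
      (∀ s ∈ A', d * s < 1)) ∧ d < 1) ∧ 0 < d := by
    have h1 : ∀ᶠ e in 𝓝[>] (0 : ℝ), ∀ t ∈ T, 0 < t → e < t := by
      rw [Finset.eventually_all]
      intro t _
      by_cases ht : 0 < t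
      · filter_upwards [ev_lt ht] with e he _ using he
      · exact Eventually.of_forall fun e h => absurd h ht
    have h2 : ∀ᶠ e in 𝓝[>] (0 : ℝ), ∀ s ∈ A', e * s < 1 := by
      rw [Finset.eventually_all]
      intro s _
      exact ev_mul s
    have h3 : ∀ᶠ e in 𝓝[>] (0 : ℝ), 0 < e := eventually_mem_nhdsWithin
    exact (((h1.and h2).and (ev_lt one_pos)).and h3).exists
  have hinvs : 1 / s0 < 0 := by rw [one_div]; exact inv_neg''.2 hs0neg
  have hmuls : ∀ t, 1 / s0 < t ↔ s0 * t < 1 := by
    intro t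
    rw [div_lt_iff_of_neg hs0neg, mul_comm]
  set h : ℝ → ℝ := fun t => if 1 / s0 < t ∧ t ≤ 0 then (d / 2) * (1 - s0 * t) else t with hh
  have hmv : ∀ t, 1 / s0 < t → t ≤ 0 → h t = (d / 2) * (1 - s0 * t) := by
    intro t h1 h2; simp only [hh]; rw [if_pos ⟨h1, h2⟩]
  have hneg : ∀ t, t ≤ 1 / s0 → h t = t := by
    intro t h1; simp only [hh]; rw [if_neg (fun h => absurd h.1 (not_lt.2 h1))]
  have hpos : ∀ t, 0 < t → h t = t := by
    intro t h1; simp only [hh]; rw [if_neg (fun h => absurd h.2 (not_le.2 h1))]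
  have hmv_pos : ∀ t, 1 / s0 < t → t ≤ 0 → 0 < h t := by
    intro t h1 h2
    rw [hmv t h1 h2]
    have := (hmuls t).1 h1
    have : 0 < 1 - s0 * t := by linarith
    positivity
  have hmv_le : ∀ t, 1 / s0 < t → t ≤ 0 → h t ≤ d / 2 := by
    intro t h1 h2
    rw [hmv t h1 h2]
    have := mul_nonneg_of_nonpos_of_nonpos hs0neg.le h2
    nlinarith
  have hmono : ∀ t ∈ T, ∀ t' ∈ T, t < t' → h t < h t' := by
    intro t ht t' ht' hlt
    rcases le_or_gt t (1 / s0) with h1 | h1
    · rw [hneg t h1]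
      rcases le_or_gt t' (1 / s0) with h2 | h2
      · rw [hneg t' h2]; exact hlt
      · rcases le_or_gt t' 0 with h3 | h3
        · have := hmv_pos t' h2 h3; linarith
        · rw [hpos t' h3]; exact hlt
    · rcases le_or_gt t 0 with h3 | h3
      · rcases le_or_gt t' 0 with h4 | h4
        · rw [hmv t h1 h3, hmv t' (by linarith) h4]
          have : s0 * t' < s0 * t := mul_lt_mul_of_neg_left hlt hs0neg
          nlinarith
        · rw [hpos t' h4]
          have := hmv_le t h1 h3
          have := hd1 t' ht' h4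
          linarith
      · rw [hpos t h3, hpos t' (by linarith)]; exact hlt
  have hsign1 : ∀ t, SignType.sign (h t - 1) = SignType.sign (t - 1) := by
    intro t
    rcases le_or_gt t (1 / s0) with h1 | h1
    · rw [hneg t h1]
    · rcases le_or_gt t 0 with h3 | h3
      · have := hmv_le t h1 h3
        exact sign_neg_eq (by linarith) (by linarith)
      · rw [hpos t h3]
  have hsign : ∀ s ∈ A', ∀ t ∈ T, SignType.sign (s * h t - 1) = SignType.sign (s * t - 1) := by
    intro s hs t ht
    rcases le_or_gt t (1 / s0) with h1 | h1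
    · rw [hneg t h1]
    · rcases le_or_gt t 0 with h3 | h3
      · have hp := hmv_pos t h1 h3
        have hl := hmv_le t h1 h3
        have hst := (hmuls t).1 h1
        have hmin := hA'min s hs
        have hds := hd2 s hs
        refine sign_neg_eq ?_ ?_
        · rcases le_or_gt s 0 with h4 | h4
          · have : s * h t ≤ 0 := mul_nonpos_of_nonpos_of_nonneg h4 hp.le
            linarith
          · have : s * h t ≤ s * (d / 2) := mul_le_mul_of_nonneg_left hl h4.le
            nlinarith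
        · have : s * t ≤ s0 * t := mul_le_mul_of_nonpos_right hmin h3
          linarith
      · rw [hpos t h3]
  set T' := T.image h with hT'
  have hht0 : h t0 = t0 := hpos t0 ht0pos
  have ht0T' : t0 ∈ T' := Finset.mem_image.2 ⟨t0, ht0, hht0⟩
  refine ⟨A', T', ⟨?_, ?_, ⟨s0, hs0A', hs0neg, hA'min, ?_⟩, ⟨t0, ht0T', ht0pos, ?_, ?_⟩⟩, ?_,
    ⟨t0, ht0T', ht01⟩, f, h, ?_, ?_, ?_, ?_, fmono, hmono, ?_, ?_, ?_⟩
  · intro h0
    exact lt_irrefl _ (hA'pos 0 h0 le_rfl).1
  · intro h0
    obtain ⟨r, hr, hr0⟩ := Finset.mem_image.1 h0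
    rcases le_or_gt r (1 / s0) with h1 | h1
    · rw [hneg r h1] at hr0; linarith
    · rcases le_or_gt r 0 with h3 | h3
      · have := hmv_pos r h1 h3; linarith
      · rw [hpos r h3] at hr0; linarith
  · intro t ht htneg
    obtain ⟨r, hr, rfl⟩ := Finset.mem_image.1 ht
    rcases le_or_gt r (1 / s0) with h1 | h1
    · rw [hneg r h1]
      rw [le_div_iff_of_neg hs0neg] at h1
      linarith
    · rcases le_or_gt r 0 with h3 | h3
      · have := hmv_pos r h1 h3; linarith
      · rw [hpos r h3] at htneg; linarith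
  · intro t ht
    obtain ⟨r, hr, rfl⟩ := Finset.mem_image.1 ht
    rcases (ht0max r hr).lt_or_eq with h' | h'
    · rw [← hht0]; exact (hmono r hr t0 ht0 h').le
    · rw [h', hht0]
  · intro s hs hs'
    exact (hA'pos s hs hs'.le).2
  · have hA1 : (1 : ℝ) ∈ A' ↔ (1 : ℝ) ∈ A := by
      constructor
      · intro h1
        obtain ⟨r, hr, hr1⟩ := Finset.mem_image.1 h1
        have := fsign1 r
        rw [hr1, sub_self, sign_zero] at this
        have h2 := sign_eq_zero_iff.1 this.symm
        have h3 : r = 1 := by linarith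
        rwa [h3] at hr
      · intro h1
        have := fsign1 1
        rw [sub_self, sign_zero] at this
        have h2 := sign_eq_zero_iff.1 this
        exact Finset.mem_image.2 ⟨1, h1, by linarith⟩
    have hT1 : (1 : ℝ) ∈ T' ↔ (1 : ℝ) ∈ T := by
      constructor
      · intro h1
        obtain ⟨r, hr, hr1⟩ := Finset.mem_image.1 h1
        have := hsign1 r
        rw [hr1, sub_self, sign_zero] at this
        have h2 := sign_eq_zero_iff.1 this.symm
        have h3 : r = 1 := by linarith
        rwa [h3] at hr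
      · intro h1
        have := hsign1 1
        rw [sub_self, sign_zero] at this
        have h2 := sign_eq_zero_iff.1 this
        exact Finset.mem_image.2 ⟨1, h1, by linarith⟩
    rw [hA1, hT1]; exact hAT
  · intro s hs; exact Finset.mem_image_of_mem f hs
  · intro s hs; exact Finset.mem_image.1 hs
  · intro t ht; exact Finset.mem_image_of_mem h ht
  · intro t ht; exact Finset.mem_image.1 ht
  · intro s hs t ht
    rw [hsign (f s) (Finset.mem_image_of_mem f hs) t ht]
    exact fsign s hs t ht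
  · intro s _; exact fsign1 s
  · intro t _; exact hsign1 t

end Pool.Agent.W110.C6
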